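import Pool.Agent.Helper85.Chern.Final

/-!
# Chernoff's density is strongly log-concave
-/

namespace Pool.Agent.Results.MP_0705dc_pr.StrongLogConcave

open MeasureTheory ProbabilityTheory Pool.Agent.Helper85.Chern

/-- Let `W` be a two-sided standard Brownian motion and let `Z` be almost surely the unique
maximiser of `t ↦ W t - t ^ 2`. Then the law of `Z` is strongly log-concave. -/
theorem result {Ω : Type*} [MeasurableSpace Ω] (μ : Measure Ω) [IsProbabilityMeasure μ]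
    (W : ℝ → Ω → ℝ) (hW : IsTwoSidedBM W μ) (Z : Ω → ℝ) (hZm : AEMeasurable Z μ)
    (hZ : ∀ᵐ ω ∂μ, ∀ t : ℝ, t ≠ Z ω → W t ω - t ^ 2 < W (Z ω) ω - (Z ω) ^ 2) :
    ∃ c : ℝ, 0 < c ∧
      (∃ h : ℝ → ℝ, LogConc h ∧ μ.map Z = volume.withDensity
        (fun x => ENNReal.ofReal (h x * Real.exp (-(c * x ^ 2 / 2))))) ∧
      (∀ f : ℝ → ℝ, ContDiff ℝ 2 f → (∀ x, 0 < f x) →
        μ.map Z = volume.withDensity (fun x => ENNReal.ofReal (f x)) →
        ∀ x, c ≤ -(deriv (deriv fun y => Real.log (f y)) x)) := by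
  obtain ⟨Z', hZ'm, hZZ'⟩ := hZm
  have hZ' : ∀ᵐ ω ∂μ, ∀ t : ℝ, t ≠ Z' ω → W t ω - t ^ 2 < W (Z' ω) ω - (Z' ω) ^ 2 := by
    filter_upwards [hZ, hZZ'] with ω h1 h2
    rw [← h2]; exact h1
  rw [Measure.map_congr hZZ']
  obtain ⟨h, hh, hlaw⟩ := Pool.Agent.Helper85.Chern.main μ hW hZ'm hZ'
  have hprob : IsProbabilityMeasure (μ.map Z') :=
    Measure.isProbabilityMeasure_map hZ'm.aemeasurable
  have hc : (0 : ℝ) < 4 * c0 := by have := c0_pos; linarith
  refine ⟨4 * c0, hc, ⟨h, hh, hlaw⟩, ?_⟩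
  intro f hf hpos hlaw' x
  have hae := density_ae hh hf.continuous.measurable (fun x => (hpos x).le) hlaw hlaw'
  have hcont : Continuous fun x => f x * Real.exp (4 * c0 * x ^ 2 / 2) := by
    have := hf.continuous
    fun_prop
  exact second_deriv_bound hf hpos (logConc_of_ae hh hcont hae) x

end Pool.Agent.Results.MP_0705dc_pr.StrongLogConcave
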